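import Pool.Agent.N44.FA.Stm

/-!
# Project FA (helper44), part MIXS (helper187)
-/

set_option autoImplicit false

namespace Pool.Agent.N187.FA

open Pool.Agent.N44.FA
open Pool.Agent.N44.NS

/-! ### the length of linear automorphisms -/

section rk

variable {V : Type} [AddCommGroup V] [Module (ZMod 2) V]

/-- the difference with the identity -/
noncomputable def df (g : V ≃ₗ[ZMod 2] V) : V →ₗ[ZMod 2] V := (g : V →ₗ[ZMod 2] V) - LinearMap.id

theorem df_apply (g : V ≃ₗ[ZMod 2] V) (v : V) : df g v = g v - v := rfl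

theorem rk_eq (g : V ≃ₗ[ZMod 2] V) : rk g = Module.finrank (ZMod 2) (LinearMap.range (df g)) := rfl

theorem isLen_rk [Module.Finite (ZMod 2) V] : IsLen (V ≃ₗ[ZMod 2] V) rk := by
  have hinv : ∀ g : V ≃ₗ[ZMod 2] V, rk g⁻¹ ≤ rk g := by
    intro g
    rw [rk_eq, rk_eq]
    refine Submodule.finrank_mono ?_
    rintro _ ⟨v, rfl⟩
    refine ⟨-(g⁻¹ v), ?_⟩
    have h : g (g⁻¹ v) = v := by
      rw [← LinearEquiv.mul_apply, mul_inv_cancel]; rfl
    rw [df_apply, df_apply, map_neg, h]
    abel
  refine ⟨?_, ?_, ?_, ?_⟩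
  · rw [rk_eq]
    have h : df (1 : V ≃ₗ[ZMod 2] V) = 0 := by
      ext v
      rw [df_apply]
      show v - v = 0
      exact sub_self v
    rw [h, LinearMap.range_zero, finrank_bot]
  · intro g h
    rw [rk_eq, rk_eq, rk_eq]
    refine le_trans (Submodule.finrank_mono ?_)
      (Submodule.finrank_add_le_finrank_add_finrank (LinearMap.range (df g)) (LinearMap.range (df h)))
    rintro _ ⟨v, rfl⟩
    have e : df (g * h) v = df g (h v) + df h v := by
      rw [df_apply, df_apply, df_apply, LinearEquiv.mul_apply]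
      abel
    rw [e]
    exact Submodule.add_mem_sup (LinearMap.mem_range_self _ _) (LinearMap.mem_range_self _ _)
  · intro g
    refine le_antisymm (hinv g) ?_
    have := hinv g⁻¹
    rwa [inv_inv] at this
  · intro g h
    rw [rk_eq, rk_eq]
    have e : LinearMap.range (df (h * g * h⁻¹)) =
        (LinearMap.range (df g)).map (h : V →ₗ[ZMod 2] V) := by
      have h1 : ∀ v : V, h (h⁻¹ v) = v := fun v => by
        rw [← LinearEquiv.mul_apply, mul_inv_cancel]; rfl
      have h2 : ∀ v : V, h⁻¹ (h v) = v := fun v => by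
        rw [← LinearEquiv.mul_apply, inv_mul_cancel]; rfl
      ext w
      rw [Submodule.mem_map]
      constructor
      · rintro ⟨v, rfl⟩
        refine ⟨df g (h⁻¹ v), LinearMap.mem_range_self _ _, ?_⟩
        rw [df_apply, df_apply, LinearEquiv.coe_coe, map_sub, h1]
        rfl
      · rintro ⟨_, ⟨v, rfl⟩, rfl⟩
        refine ⟨h v, ?_⟩
        rw [df_apply, df_apply, LinearEquiv.coe_coe, map_sub]
        congr 1
        show h (g (h⁻¹ (h v))) = h (g v)
        rw [h2]
    rw [e]
    exact LinearEquiv.finrank_map_eq h _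

end rk

/-! ### the isomorphism -/

/-- the vector space -/
abbrev Vn (n : ℕ) : Type := Fin 3 × Om n → ZMod 2

/-- matrices over matrices as linear automorphisms -/
noncomputable def Psi (n : ℕ) : St n ≃* (Vn n ≃ₗ[ZMod 2] Vn n) :=
  ((Units.mapEquiv (Matrix.compRingEquiv (Fin 3) (Om n) (ZMod 2)).toMulEquiv).trans
    Matrix.GeneralLinearGroup.toLin).trans
      (LinearMap.GeneralLinearGroup.generalLinearEquiv (ZMod 2) (Vn n))

theorem Psi_apply (n : ℕ) (g : St n) (v : Vn n) : Psi n g v =
    (Matrix.comp (Fin 3) (Fin 3) (Om n) (Om n) (ZMod 2) (g : Matrix (Fin 3) (Fin 3) (Mt n))).mulVecLin v := rfl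

theorem comp_sub' (n : ℕ) (a b : Matrix (Fin 3) (Fin 3) (Mt n)) :
    Matrix.comp (Fin 3) (Fin 3) (Om n) (Om n) (ZMod 2) (a - b) =
      Matrix.comp (Fin 3) (Fin 3) (Om n) (Om n) (ZMod 2) a -
        Matrix.comp (Fin 3) (Fin 3) (Om n) (Om n) (ZMod 2) b := rfl

theorem ell_eq (n : ℕ) (g : St n) : ell n g = rk (Psi n g) := by
  rw [rk_eq]
  unfold ell Matrix.rank
  have e : df (Psi n g) = (Matrix.comp (Fin 3) (Fin 3) (Om n) (Om n) (ZMod 2)
      ((g : Matrix (Fin 3) (Fin 3) (Mt n)) - 1)).mulVecLin := by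
    refine LinearMap.ext fun v => ?_
    rw [df_apply, Psi_apply, comp_sub', Matrix.comp_one, Matrix.mulVecLin_apply, Matrix.mulVecLin_apply,
      Matrix.sub_mulVec, Matrix.one_mulVec]
  rw [e]

theorem isLen_ell (n : ℕ) : IsLen (St n) (ell n) := by
  have h : IsLen (Vn n ≃ₗ[ZMod 2] Vn n) rk := isLen_rk
  refine ⟨?_, ?_, ?_, ?_⟩
  · rw [ell_eq, map_one]; exact h.one
  · intro g k; rw [ell_eq, ell_eq, ell_eq, map_mul]; exact h.mul _ _
  · intro g; rw [ell_eq, ell_eq, map_inv]; exact h.inv _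
  · intro g k; rw [ell_eq, ell_eq, map_mul, map_mul, map_inv]; exact h.conj _ _

theorem mix_transfer (n k C : ℕ) (h : MixAt (Vn n ≃ₗ[ZMod 2] Vn n) rk k C) : MixAt (St n) (ell n) k C := by
  intro Ws hlen hW
  obtain ⟨w, hw⟩ := h (Ws.map fun W => (Psi n W.1, W.2.map fun x => (x.1, Psi n x.2)))
    (by rwa [List.length_map]) (by
      intro W' hW'
      obtain ⟨W, hWm, rfl⟩ := List.mem_map.1 hW'
      obtain ⟨h1, h2, h3⟩ := hW W hWm
      refine ⟨?_, ?_, ?_⟩
      · intro h0
        exact h1 (List.map_eq_nil_iff.1 h0)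
      · show (W.2.map fun x => (x.1, Psi n x.2)).length ≤ k
        rwa [List.length_map]
      · show (W.2.map fun x => (x.1, Psi n x.2)).IsChain _
        rw [List.isChain_map]
        refine h3.imp fun a b hab hne => ?_
        have := hab hne
        rwa [ell_eq] at this)
  refine ⟨(Psi n).symm w, fun W hWm => ?_⟩
  have h1 := hw _ (List.mem_map_of_mem hWm)
  rw [ell_eq, map_mul, map_list_prod, List.map_map]
  refine h1.trans_eq ?_
  congr 3
  show (W.2.map fun x => (x.1, Psi n x.2)).map (fun x => w ^ (x.1 : ℤ) * x.2) = _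
  rw [List.map_map]
  refine List.map_congr_left fun x _ => ?_
  show w ^ (x.1 : ℤ) * Psi n x.2 = Psi n ((Psi n).symm w ^ (x.1 : ℤ) * x.2)
  rw [map_mul, map_zpow, MulEquiv.apply_symm_apply]

/-! ### the length of an elementary matrix -/

theorem le_ell (n : ℕ) : n ≤ ell n (el 0 2 (by decide) (1 : Mt n)) := by
  have e0 : ((el 0 2 (by decide) (1 : Mt n) : St n) : Matrix (Fin 3) (Fin 3) (Mt n)) - 1 =
      Matrix.single 0 2 1 := by
    show (1 + Matrix.single 0 2 (1 : Mt n)) - 1 = _
    rw [add_sub_cancel_left]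
  unfold ell Matrix.rank
  rw [e0]
  set A := Matrix.comp (Fin 3) (Fin 3) (Om n) (Om n) (ZMod 2) (Matrix.single 0 2 (1 : Mt n)) with hA
  have hAapp : ∀ b c : Om n, A (0, b) (2, c) = (1 : Mt n) b c := by
    intro b c
    show (Matrix.single 0 2 (1 : Mt n) : Matrix (Fin 3) (Fin 3) (Mt n)) 0 2 b c = _
    rw [Matrix.single_apply_same]
  let J : (Om n → ZMod 2) →ₗ[ZMod 2] Vn n :=
    { toFun := fun v p => if p.1 = 2 then v p.2 else 0
      map_add' := fun v w => by
        funext p
        show (if p.1 = 2 then (v + w) p.2 else 0) = (if p.1 = 2 then v p.2 else 0) + if p.1 = 2 then w p.2 else 0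
        split_ifs
        · rfl
        · rw [add_zero]
      map_smul' := fun c v => by
        funext p
        show (if p.1 = 2 then (c • v) p.2 else 0) = c • if p.1 = 2 then v p.2 else 0
        split_ifs
        · rfl
        · rw [smul_zero] }
  have hJ : ∀ v b, (A.mulVecLin (J v)) (0, b) = v b := by
    intro v b
    rw [Matrix.mulVecLin_apply]
    show ∑ p : Fin 3 × Om n, A (0, b) p * (if p.1 = 2 then v p.2 else 0) = v b
    rw [Fintype.sum_prod_type]
    rw [Finset.sum_eq_single (2 : Fin 3)]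
    · have h1 : ∀ c : Om n, A (0, b) (2, c) * (if (2 : Fin 3) = 2 then v c else 0) = (1 : Mt n) b c * v c := by
        intro c
        rw [if_pos rfl, hAapp]
      refine (Finset.sum_congr rfl fun c _ => h1 c).trans ?_
      exact congrFun (Matrix.one_mulVec v) b
    · intro i _ hi
      refine Finset.sum_eq_zero fun c _ => ?_
      rw [if_neg hi, mul_zero]
    · intro h; exact absurd (Finset.mem_univ _) h
  have hinj : Function.Injective (A.mulVecLin ∘ₗ J) := by
    intro v w h
    funext b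
    rw [← hJ v b, ← hJ w b]
    exact congrFun h (0, b)
  have h1 : Module.finrank (ZMod 2) (LinearMap.range (A.mulVecLin ∘ₗ J)) = 2 ^ (n + 1) := by
    rw [LinearMap.finrank_range_of_inj hinj, Module.finrank_fintype_fun_eq_card, Fintype.card_fun,
      ZMod.card, ZMod.card]
  have h2 : Module.finrank (ZMod 2) (LinearMap.range (A.mulVecLin ∘ₗ J)) ≤
      Module.finrank (ZMod 2) (LinearMap.range A.mulVecLin) :=
    Submodule.finrank_mono (LinearMap.range_comp_le_range _ _)
  rw [h1] at h2
  refine le_trans ?_ h2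
  exact (Nat.lt_two_pow_self (n := n + 1)).le.trans' (Nat.le_succ n)

theorem t_mixs : S_GREEDY → S_MIXS := by
  intro hG
  refine ⟨isLen_ell, fun k => ?_, le_ell⟩
  obtain ⟨C, hC⟩ := hG k
  refine ⟨C, fun n hn => mix_transfer n k C ?_⟩
  -- the constant of the greedy lemma
  refine hC (Vn n) ?_
  rw [Module.finrank_fintype_fun_eq_card, Fintype.card_prod, Fintype.card_fin, Fintype.card_fun,
    ZMod.card, ZMod.card]
  have h : n + 1 < 2 ^ (n + 1) := Nat.lt_two_pow_self
  omega

end Pool.Agent.N187.FA
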